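import Mathlib

/-!
# Displacing permutations of a finite subset of the unit interval

The sixteen points with a many-to-one map `T` in `Pool/Agent/S08686.lean` show that the answer to the
question is no. Here the same is proved for bijective maps `T : F → F`, where no proper nonempty subset
of `F` is closed under the permissible steps, and with every positive number in place of `1 / 3`.

The set `F` consists of `2 R` blocks of `M` points, the distance of two consecutive blocks being the
length of a block. The map interchanges the blocks `2 i` and `2 i + 1`, and inside the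
blocks it is the rotation by three places. A chain can pass from one pair of blocks to the next one
only if it is at the end of a block, and after this has happened it does not come near
the end of a block again for about `M / 4` steps.
-/

set_option autoImplicit false

namespace Pool.Agent.Results.MP_4e7ec3_co.BijectiveMaps

/-- `Step F T a b`: one may pass from `a` to `b` by one permissible step, that is `b` is `T a` or the
nearest point of `F` to the left or to the right of `T a`. -/
def Step (F : Finset ℝ) (T : ℝ → ℝ) (a b : ℝ) : Prop :=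
  b = T a ∨ (b ∈ F ∧ b < T a ∧ ∀ r ∈ F, r < T a → r ≤ b) ∨
    (b ∈ F ∧ T a < b ∧ ∀ r ∈ F, T a < r → b ≤ r)

/-! ### The combinatorial map -/

/-- The map on indices: the index `M * B + x` (with `x < M`) stands for the `x`-th point of the `B`-th
block. -/
def t (M j : ℕ) : ℕ :=
  M * (if j / M % 2 = 0 then j / M + 1 else j / M - 1) + (j % M + 3) % M

theorem t_div {M : ℕ} (hM : 4 < M) (j : ℕ) :
    t M j / M = if j / M % 2 = 0 then j / M + 1 else j / M - 1 := by
  unfold t
  rw [Nat.mul_add_div (by omega), Nat.div_eq_of_lt (Nat.mod_lt _ (by omega))]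
  omega

theorem t_mod (M j : ℕ) : t M j % M = (j % M + 3) % M := by
  unfold t
  rw [Nat.mul_add_mod, Nat.mod_mod]

theorem swap_lt (B R : ℕ) (h : B < 2 * R) : (if B % 2 = 0 then B + 1 else B - 1) < 2 * R := by
  split_ifs <;> omega

theorem swap_inj (B C : ℕ) (h : (if B % 2 = 0 then B + 1 else B - 1) =
    if C % 2 = 0 then C + 1 else C - 1) : B = C := by
  split_ifs at h <;> omega

theorem swap_half (B : ℕ) : (if B % 2 = 0 then B + 1 else B - 1) / 2 = B / 2 := by
  split_ifs <;> omega

theorem shift_inj {M x y : ℕ} (hM : 4 < M) (hx : x < M) (hy : y < M)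
    (h : (x + 3) % M = (y + 3) % M) : x = y := by
  have e1 : (x + 3) % M = if x + 3 < M then x + 3 else x + 3 - M := by
    split_ifs with c
    · exact Nat.mod_eq_of_lt c
    · rw [Nat.mod_eq_sub_mod (by omega), Nat.mod_eq_of_lt (by omega)]
  have e2 : (y + 3) % M = if y + 3 < M then y + 3 else y + 3 - M := by
    split_ifs with c
    · exact Nat.mod_eq_of_lt c
    · rw [Nat.mod_eq_sub_mod (by omega), Nat.mod_eq_of_lt (by omega)]
  rw [e1, e2] at h
  split_ifs at h <;> omega

theorem t_lt {M R : ℕ} (hM : 4 < M) {j : ℕ} (hj : j < M * (2 * R)) : t M j < M * (2 * R) := by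
  have h1 : j / M < 2 * R := Nat.div_lt_of_lt_mul hj
  have h2 : t M j / M < 2 * R := by
    rw [t_div hM]
    exact swap_lt _ _ h1
  exact (Nat.div_lt_iff_lt_mul (by omega)).1 h2 |>.trans_eq (by ring)

theorem t_inj {M : ℕ} (hM : 4 < M) : Function.Injective (t M) := by
  intro i j hij
  have h1 := t_div hM i
  have h2 := t_div hM j
  have h3 := t_mod M i
  have h4 := t_mod M j
  rw [hij] at h1 h3
  have hd : i / M = j / M := swap_inj _ _ (h1.symm.trans h2)
  have hm : i % M = j % M :=
    shift_inj hM (Nat.mod_lt _ (by omega)) (Nat.mod_lt _ (by omega)) (h3.symm.trans h4)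
  rw [← Nat.div_add_mod i M, ← Nat.div_add_mod j M, hd, hm]

/-- One step from `j` to one of `t M j - 1`, `t M j`, `t M j + 1`. Either the pair of blocks is the
same, or it is a neighbouring one and the new place is the first or the last one of a block. In any
case the place changes by `2`, `3` or `4` if it is not near the end of the block. -/
theorem step_index {M : ℕ} (hM : 8 < M) {j l : ℕ} (h : l = t M j ∨ l + 1 = t M j ∨ l = t M j + 1) :
    (l / M / 2 = j / M / 2 ∨ ((l / M / 2 = j / M / 2 + 1 ∨ l / M / 2 + 1 = j / M / 2) ∧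
      (l % M = 0 ∨ l % M = M - 1))) ∧
    (j % M + 4 < M → j % M + 2 ≤ l % M ∧ l % M ≤ j % M + 4) ∧
    (j % M = M - 1 → 1 ≤ l % M ∧ l % M ≤ 3) := by
  have hd := t_div (by omega : 4 < M) j
  have hm := t_mod M j
  have hpos : 0 < M := by omega
  have e1 := Nat.div_add_mod (t M j) M
  have e2 := Nat.mod_lt (t M j) hpos
  have e4 := Nat.mod_lt j hpos
  set B := t M j / M with hB
  set x := t M j % M with hx
  set D := j / M with hD
  set y := j % M with hy
  have key1 : B / 2 = D / 2 := by
    rw [hd]
    exact swap_half D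
  have key2 : y + 4 < M → x = y + 3 := by
    intro hlt
    rw [hm, Nat.mod_eq_of_lt (by omega)]
  have key3 : y = M - 1 → x = 2 := by
    intro he
    rw [hm, he]
    have : M - 1 + 3 = M + 2 := by omega
    rw [this, Nat.add_mod_left, Nat.mod_eq_of_lt (by omega)]
  rcases h with h | h | h
  · rw [h, ← hB, ← hx]
    refine ⟨Or.inl key1, fun h1 => ?_, fun h1 => ?_⟩
    · have := key2 h1
      omega
    · have := key3 h1
      omega
  · rcases Nat.eq_zero_or_pos x with hx0 | hx0
    · -- the left neighbour lies in the previous block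
      have hBpos : 0 < B := by
        rcases Nat.eq_zero_or_pos B with hB0 | hB0
        · rw [hB0, hx0] at e1
          omega
        · exact hB0
      obtain ⟨B', hB'⟩ : ∃ B', B = B' + 1 := ⟨B - 1, by omega⟩
      have hl : l = M * B' + (M - 1) := by
        have : M * B = M * B' + M := by rw [hB']; ring
        omega
      have hl1 : l / M = B' := by
        rw [hl, Nat.mul_add_div hpos, Nat.div_eq_of_lt (by omega)]
        omega
      have hl2 : l % M = M - 1 := by
        rw [hl, Nat.mul_add_mod, Nat.mod_eq_of_lt (by omega)]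
      refine ⟨?_, fun h1 => ?_, fun h1 => ?_⟩
      · rw [hl1, hl2]
        omega
      · have := key2 h1
        omega
      · have := key3 h1
        omega
    · have hl : l = M * B + (x - 1) := by omega
      have hl1 : l / M = B := by
        rw [hl, Nat.mul_add_div hpos, Nat.div_eq_of_lt (by omega)]
        omega
      have hl2 : l % M = x - 1 := by
        rw [hl, Nat.mul_add_mod, Nat.mod_eq_of_lt (by omega)]
      rw [hl1, hl2]
      refine ⟨Or.inl key1, fun h1 => ?_, fun h1 => ?_⟩
      · have := key2 h1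
        omega
      · have := key3 h1
        omega
  · rcases Nat.lt_or_ge (x + 1) M with hx0 | hx0
    · have hl : l = M * B + (x + 1) := by omega
      have hl1 : l / M = B := by
        rw [hl, Nat.mul_add_div hpos, Nat.div_eq_of_lt (by omega)]
        omega
      have hl2 : l % M = x + 1 := by
        rw [hl, Nat.mul_add_mod, Nat.mod_eq_of_lt (by omega)]
      rw [hl1, hl2]
      refine ⟨Or.inl key1, fun h1 => ?_, fun h1 => ?_⟩
      · have := key2 h1
        omega
      · have := key3 h1
        omega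
    · have hl : l = M * (B + 1) + 0 := by
        have : M * (B + 1) = M * B + M := by ring
        omega
      have hl1 : l / M = B + 1 := by
        rw [hl, Nat.mul_add_div hpos]
        simp
      have hl2 : l % M = 0 := by
        rw [hl, Nat.mul_add_mod]
        simp
      refine ⟨?_, fun h1 => ?_, fun h1 => ?_⟩
      · rw [hl1, hl2]
        omega
      · have := key2 h1
        omega
      · have := key3 h1
        omega

/-- Within `N` steps the pair of blocks changes at most once. -/
theorem chain_index {M N : ℕ} (hM : 4 * N + 8 < M) {j : ℕ → ℕ}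
    (h : ∀ i < N, j (i + 1) = t M (j i) ∨ j (i + 1) + 1 = t M (j i) ∨ j (i + 1) = t M (j i) + 1) :
    ∀ n ≤ N, j n / M / 2 = j 0 / M / 2 ∨
      ((j n / M / 2 = j 0 / M / 2 + 1 ∨ j n / M / 2 + 1 = j 0 / M / 2) ∧
        (j n % M = M - 1 ∨ j n % M ≤ 4 * n)) := by
  intro n
  induction n with
  | zero => intro _; exact Or.inl rfl
  | succ n ih =>
    intro hn
    have hs := step_index (by omega : 8 < M) (h n (by omega))
    obtain ⟨s1, s2, s3⟩ := hs
    rcases ih (by omega) with h0 | ⟨h0, h1⟩
    · rcases s1 with s1 | ⟨s1, s4⟩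
      · left
        rw [s1, h0]
      · right
        rw [h0] at s1
        refine ⟨s1, ?_⟩
        rcases s4 with s4 | s4
        · right
          omega
        · left
          exact s4
    · right
      have hfin : j (n + 1) % M ≤ 4 * (n + 1) ∧ 1 ≤ j (n + 1) % M := by
        rcases h1 with h1 | h1
        · have := s3 h1
          omega
        · have := s2 (by omega)
          omega
      rcases s1 with s1 | ⟨s1, s4⟩
      · rw [s1]
        exact ⟨h0, Or.inr hfin.1⟩
      · exfalso
        omega

/-! ### The points -/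

/-- The point with the index `j`. -/
noncomputable def pos (M R j : ℕ) : ℝ :=
  (2 * ((j / M : ℕ) : ℝ) + ((j % M : ℕ) : ℝ) / ((M : ℝ) - 1)) / (4 * R - 1)

theorem frac_mem {M : ℕ} (hM : 1 < M) (j : ℕ) :
    0 ≤ ((j % M : ℕ) : ℝ) / ((M : ℝ) - 1) ∧ ((j % M : ℕ) : ℝ) / ((M : ℝ) - 1) ≤ 1 := by
  have h1 : (1 : ℝ) < M := by exact_mod_cast hM
  have h2 : ((j % M : ℕ) : ℝ) ≤ (M : ℝ) - 1 := by
    have : j % M + 1 ≤ M := Nat.mod_lt j (by omega)
    have : (((j % M : ℕ) : ℝ)) + 1 ≤ M := by exact_mod_cast this
    linarith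
  constructor
  · apply div_nonneg (Nat.cast_nonneg _)
    linarith
  · rw [div_le_one (by linarith)]
    exact h2

theorem pos_lt {M R : ℕ} (hM : 1 < M) (hR : 0 < R) {i j : ℕ} (h : i < j) :
    pos M R i < pos M R j := by
  have hR' : (1 : ℝ) ≤ R := by exact_mod_cast hR
  unfold pos
  apply div_lt_div_of_pos_right _ (by linarith)
  have h1 : (1 : ℝ) < M := by exact_mod_cast hM
  have hle : i / M ≤ j / M := Nat.div_le_div_right h.le
  rcases hle.lt_or_eq with hlt | heq
  · have : ((i / M : ℕ) : ℝ) + 1 ≤ ((j / M : ℕ) : ℝ) := by exact_mod_cast hlt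
    have := (frac_mem hM i).2
    have := (frac_mem hM j).1
    linarith
  · have e1 := Nat.div_add_mod i M
    have e2 := Nat.div_add_mod j M
    rw [heq] at e1
    have : i % M < j % M := by omega
    have : ((i % M : ℕ) : ℝ) < ((j % M : ℕ) : ℝ) := by exact_mod_cast this
    rw [heq]
    have : ((i % M : ℕ) : ℝ) / ((M : ℝ) - 1) < ((j % M : ℕ) : ℝ) / ((M : ℝ) - 1) :=
      div_lt_div_of_pos_right this (by linarith)
    linarith

theorem pos_strictMono {M R : ℕ} (hM : 1 < M) (hR : 0 < R) : StrictMono (pos M R) :=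
  fun _ _ h => pos_lt hM hR h

/-- The finite set. -/
noncomputable def FF (M R : ℕ) : Finset ℝ := (Finset.range (M * (2 * R))).image (pos M R)

theorem mem_FF {M R : ℕ} {x : ℝ} : x ∈ FF M R ↔ ∃ j : ℕ, j < M * (2 * R) ∧ pos M R j = x := by
  simp [FF]

/-- The map on the real line which carries the index map. -/
noncomputable def TT (M R : ℕ) (x : ℝ) : ℝ := pos M R (t M (Function.invFun (pos M R) x))

theorem TT_pos {M R : ℕ} (hM : 1 < M) (hR : 0 < R) (j : ℕ) :
    TT M R (pos M R j) = pos M R (t M j) := by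
  unfold TT
  rw [Function.leftInverse_invFun (pos_strictMono hM hR).injective j]

/-- Steps between points are steps between indices. -/
theorem step_pos {M R : ℕ} (hM : 4 < M) (hR : 0 < R) {j : ℕ} (hj : j < M * (2 * R)) {b : ℝ}
    (h : Step (FF M R) (TT M R) (pos M R j) b) :
    ∃ l, l < M * (2 * R) ∧ pos M R l = b ∧ (l = t M j ∨ l + 1 = t M j ∨ l = t M j + 1) := by
  have hmono := pos_strictMono (M := M) (R := R) (by omega) hR
  have htl := t_lt hM hj
  unfold Step at h
  rw [TT_pos (by omega) hR] at h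
  rcases h with h | ⟨hb, h1, h2⟩ | ⟨hb, h1, h2⟩
  · exact ⟨t M j, htl, h.symm, Or.inl rfl⟩
  · obtain ⟨l, hl, rfl⟩ := mem_FF.1 hb
    refine ⟨l, hl, rfl, Or.inr (Or.inl ?_)⟩
    have hlt : l < t M j := hmono.lt_iff_lt.1 h1
    have h3 := h2 (pos M R (t M j - 1)) (mem_FF.2 ⟨_, by omega, rfl⟩) (hmono (by omega))
    have := hmono.le_iff_le.1 h3
    omega
  · obtain ⟨l, hl, rfl⟩ := mem_FF.1 hb
    refine ⟨l, hl, rfl, Or.inr (Or.inr ?_)⟩
    have hlt : t M j < l := hmono.lt_iff_lt.1 h1
    have h3 := h2 (pos M R (t M j + 1)) (mem_FF.2 ⟨_, by omega, rfl⟩) (hmono (by omega))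
    have := hmono.le_iff_le.1 h3
    omega

theorem pos_dist {M R : ℕ} (hM : 1 < M) (hR : 0 < R) {i j : ℕ}
    (h1 : i / M / 2 ≤ j / M / 2 + 1) (h2 : j / M / 2 ≤ i / M / 2 + 1) :
    |pos M R i - pos M R j| ≤ 7 / (4 * R - 1) := by
  have hR' : (1 : ℝ) ≤ R := by exact_mod_cast hR
  unfold pos
  rw [← sub_div, abs_div, abs_of_pos (by linarith : (0 : ℝ) < 4 * R - 1)]
  apply div_le_div_of_nonneg_right _ (by linarith)
  have a1 : i / M ≤ j / M + 3 := by omega
  have a2 : j / M ≤ i / M + 3 := by omega
  have a1' : ((i / M : ℕ) : ℝ) ≤ ((j / M : ℕ) : ℝ) + 3 := by exact_mod_cast a1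
  have a2' : ((j / M : ℕ) : ℝ) ≤ ((i / M : ℕ) : ℝ) + 3 := by exact_mod_cast a2
  obtain ⟨b1, b2⟩ := frac_mem hM i
  obtain ⟨c1, c2⟩ := frac_mem hM j
  rw [abs_le]
  constructor <;> linarith

/-- **Displacing bijections do not spread in `O(1/ε)` steps.** For every real number `k` and every
`δ > 0` there are a finite set `F ⊆ [0,1]` which contains `0` and `1`, a number `ε > 0` and a
bijective map `T : F → F` with `|p - T p| > ε` for all `p ∈ F` such that all points which can be
reached from any `p₀ ∈ F` within `k / ε` permissible steps have a distance less than `δ` from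
`p₀`. -/
theorem result (k δ : ℝ) (hδ : 0 < δ) :
    ∃ (F : Finset ℝ) (ε : ℝ) (T : ℝ → ℝ),
      (∀ p ∈ F, 0 ≤ p ∧ p ≤ 1) ∧ (0 : ℝ) ∈ F ∧ (1 : ℝ) ∈ F ∧ 0 < ε ∧
      Set.BijOn T F F ∧ (∀ p ∈ F, ε < |p - T p|) ∧
      ∀ p₀ ∈ F, ∀ n : ℕ, (n : ℝ) ≤ k / ε → ∀ x : ℕ → ℝ, x 0 = p₀ →
        (∀ i < n, Step F T (x i) (x (i + 1))) → |x n - p₀| < δ := by
  obtain ⟨R, hRδ⟩ := exists_nat_gt (7 / δ + 1)
  have hR1 : (1 : ℝ) < R := by
    have : 0 < 7 / δ := by positivity
    linarith
  have hR : 0 < R := by
    have : (0 : ℝ) < R := by linarith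
    exact_mod_cast this
  obtain ⟨N, hN⟩ := exists_nat_gt (k / (1 / (4 * R)))
  set M := 4 * N + 9 with hMdef
  have hM : 4 * N + 8 < M := by omega
  have hM1 : 1 < M := by omega
  have hM4 : 4 < M := by omega
  have hmono := pos_strictMono (M := M) (R := R) hM1 hR
  have hMr : (1 : ℝ) < M := by exact_mod_cast hM1
  have h0 : pos M R 0 = 0 := by simp [pos]
  have hlast : pos M R (M * (2 * R) - 1) = 1 := by
    have e : M * (2 * R) - 1 = M * (2 * R - 1) + (M - 1) := by
      have : M * (2 * R) = M * (2 * R - 1) + M := by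
        conv_lhs => rw [show 2 * R = (2 * R - 1) + 1 by omega]
        ring
      omega
    have e1 : (M * (2 * R) - 1) / M = 2 * R - 1 := by
      rw [e, Nat.mul_add_div (by omega), Nat.div_eq_of_lt (by omega)]
      omega
    have e2 : (M * (2 * R) - 1) % M = M - 1 := by
      rw [e, Nat.mul_add_mod, Nat.mod_eq_of_lt (by omega)]
    unfold pos
    rw [e1, e2, Nat.cast_sub (by omega), Nat.cast_sub (by omega)]
    push_cast
    rw [div_self (by linarith), div_eq_one_iff_eq (by linarith)]
    ring
  refine ⟨FF M R, 1 / (4 * R), TT M R, ?_, ?_, ?_, by positivity, ?_, ?_, ?_⟩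
  · intro p hp
    obtain ⟨j, hj, rfl⟩ := mem_FF.1 hp
    constructor
    · rw [← h0]
      exact hmono.monotone (Nat.zero_le _)
    · rw [← hlast]
      exact hmono.monotone (by omega)
  · exact mem_FF.2 ⟨0, by positivity, h0⟩
  · refine mem_FF.2 ⟨M * (2 * R) - 1, ?_, hlast⟩
    have : 0 < M * (2 * R) := by positivity
    omega
  · have hmaps : Set.MapsTo (TT M R) (FF M R : Set ℝ) (FF M R : Set ℝ) := by
      intro p hp
      obtain ⟨j, hj, rfl⟩ := mem_FF.1 hp
      rw [TT_pos hM1 hR]
      exact mem_FF.2 ⟨_, t_lt hM4 hj, rfl⟩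
    have hinj : Set.InjOn (TT M R) (FF M R : Set ℝ) := by
      intro p hp q hq hpq
      obtain ⟨i, hi, rfl⟩ := mem_FF.1 hp
      obtain ⟨j, hj, rfl⟩ := mem_FF.1 hq
      rw [TT_pos hM1 hR, TT_pos hM1 hR] at hpq
      rw [t_inj hM4 (hmono.injective hpq)]
    exact ⟨hmaps, hinj, Finset.surjOn_of_injOn_of_card_le (TT M R) hmaps hinj le_rfl⟩
  · intro p hp
    obtain ⟨j, hj, rfl⟩ := mem_FF.1 hp
    rw [TT_pos hM1 hR]
    have hd := t_div hM4 j
    unfold pos
    rw [← sub_div, abs_div, abs_of_pos (by linarith : (0 : ℝ) < 4 * R - 1)]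
    obtain ⟨b1, b2⟩ := frac_mem hM1 j
    obtain ⟨c1, c2⟩ := frac_mem hM1 (t M j)
    have hge : 1 ≤ |2 * ((j / M : ℕ) : ℝ) + ((j % M : ℕ) : ℝ) / ((M : ℝ) - 1) -
        (2 * ((t M j / M : ℕ) : ℝ) + ((t M j % M : ℕ) : ℝ) / ((M : ℝ) - 1))| := by
      rw [le_abs]
      split_ifs at hd with hh
      · right
        have : ((t M j / M : ℕ) : ℝ) = ((j / M : ℕ) : ℝ) + 1 := by
          rw [hd]
          push_cast
          ring
        linarith
      · left
        have h1 : t M j / M + 1 = j / M := by
          rw [hd]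
          generalize j / M = B at hh
          omega
        have : ((t M j / M : ℕ) : ℝ) + 1 = ((j / M : ℕ) : ℝ) := by exact_mod_cast h1
        linarith
    calc 1 / (4 * (R : ℝ)) < 1 / (4 * R - 1) :=
          one_div_lt_one_div_of_lt (by linarith) (by linarith)
      _ ≤ _ := div_le_div_of_nonneg_right hge (by linarith)
  · intro p₀ hp₀ n hn x hx0 hx
    have hnN : n ≤ N := by
      have : (n : ℝ) < N := lt_of_le_of_lt hn hN
      exact_mod_cast this.le
    -- lift the chain to the indices
    have hmem : ∀ i ≤ n, x i ∈ FF M R := by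
      intro i
      induction i with
      | zero => intro _; rw [hx0]; exact hp₀
      | succ i ih =>
        intro hi
        obtain ⟨j, hj, hji⟩ := mem_FF.1 (ih (by omega))
        have hs := hx i (by omega)
        rw [← hji] at hs
        obtain ⟨l, hl, hl2, -⟩ := step_pos hM4 hR hj hs
        exact mem_FF.2 ⟨l, hl, hl2⟩
    have hex : ∀ i, ∃ j, i ≤ n → (j < M * (2 * R) ∧ pos M R j = x i) := by
      intro i
      by_cases hi : i ≤ n
      · obtain ⟨j, hj⟩ := mem_FF.1 (hmem i hi)
        exact ⟨j, fun _ => hj⟩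
      · exact ⟨0, fun h => absurd h hi⟩
    choose j hj using hex
    have hstep : ∀ i < n, j (i + 1) = t M (j i) ∨ j (i + 1) + 1 = t M (j i) ∨
        j (i + 1) = t M (j i) + 1 := by
      intro i hi
      have hs := hx i hi
      rw [← (hj i (by omega)).2] at hs
      obtain ⟨l, hl, hl2, hl3⟩ := step_pos hM4 hR (hj i (by omega)).1 hs
      have : l = j (i + 1) := by
        apply hmono.injective
        rw [hl2, (hj (i + 1) (by omega)).2]
      rwa [this] at hl3
    have hc := chain_index (N := n) (by omega : 4 * n + 8 < M) hstep n le_rfl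
    rw [← hx0, ← (hj n le_rfl).2, ← (hj 0 (Nat.zero_le _)).2]
    have hbound := pos_dist (M := M) (R := R) hM1 hR (i := j n) (j := j 0) (by omega) (by omega)
    refine lt_of_le_of_lt hbound ?_
    rw [div_lt_iff₀ (by linarith)]
    have h7 : 7 / δ * δ = 7 := by field_simp
    nlinarith

end Pool.Agent.Results.MP_4e7ec3_co.BijectiveMaps
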